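import Mathlib
import Pool.Agent.H373R2.T7.Fund
import Pool.Agent.Helper256.KM.Mertens
import Pool.Agent.W23.PL.Defs

/-! PL-UBS: an upper bound sieve. -/

set_option autoImplicit false

namespace Pool.Agent.W366.PL

open Finset
open Pool.Agent.H373R2.T7
open Pool.Agent.W23.PL Pool.Agent.W23.DC

/-- Mertens -/
theorem Vz_up : ∃ C : ℝ, 0 < C ∧ ∀ Y : ℕ, 3 ≤ Y → Vz Y ≤ C / Real.log Y := by
  obtain ⟨C, hC⟩ := Pool.Agent.Helper256.KM.mertens_inv
  refine ⟨Real.exp C, Real.exp_pos _, fun Y hY => ?_⟩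
  have h1 := (abs_le.mp (hC Y hY)).1
  have hlog : 0 < Real.log Y := Real.log_pos (by exact_mod_cast (by omega : 1 < Y))
  have h2 : Vz Y ≤ Real.exp (-(∑ p ∈ pz Y, (1 : ℝ) / p)) := by
    unfold Vz
    rw [← Finset.sum_neg_distrib, Real.exp_sum]
    refine Finset.prod_le_prod (fun p hp => ?_) (fun p hp => ?_)
    · have h2 : (2 : ℝ) ≤ p := by exact_mod_cast (mem_pz.1 hp).2.two_le
      have : 1 / (p : ℝ) ≤ 1 := by rw [div_le_one (by linarith)]; linarith
      linarith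
    · have := Real.add_one_le_exp (-(1 / (p : ℝ)))
      linarith
  refine h2.trans ?_
  have h3 : Real.exp (-(∑ p ∈ pz Y, (1 : ℝ) / p)) ≤ Real.exp (C - Real.log (Real.log Y)) := by
    apply Real.exp_le_exp.mpr
    have : ∑ p ∈ pz Y, (1 : ℝ) / p = ∑ p ∈ (Icc 1 Y).filter Nat.Prime, (1 : ℝ) / p := rfl
    linarith
  rw [Real.exp_sub, Real.exp_log hlog] at h3
  exact h3

theorem sol {l m : ℕ} (hl : l.Prime) (hlm : ¬ l ∣ m) (c : ℤ) :
    ∃ n ∈ range l, (l : ℤ) ∣ c + m * n := by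
  have hcop : IsCoprime (m : ℤ) (l : ℤ) := by
    rw [Nat.isCoprime_iff_coprime]
    exact ((Nat.Prime.coprime_iff_not_dvd hl).mpr hlm).symm
  obtain ⟨u, v, huv⟩ := hcop
  have hl0 : (0 : ℤ) < l := by exact_mod_cast hl.pos
  refine ⟨((-c * u) % l).toNat, ?_, ?_⟩
  · rw [mem_range]
    have h1 := Int.emod_lt_of_pos (-c * u) hl0
    have h2 := Int.emod_nonneg (-c * u) hl0.ne'
    omega
  · rw [Int.toNat_of_nonneg (Int.emod_nonneg _ hl0.ne'), Int.emod_def]
    refine ⟨c * v - m * ((-c * u) / l), ?_⟩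
    linear_combination (-c) * huv

theorem sol_uniq {l m : ℕ} (hl : l.Prime) (hlm : ¬ l ∣ m) (c : ℤ) {n n' : ℕ} (hn : n ∈ range l)
    (hn' : n' ∈ range l) (h : (l : ℤ) ∣ c + m * n) (h' : (l : ℤ) ∣ c + m * n') : n = n' := by
  have h1 : (l : ℤ) ∣ m * ((n : ℤ) - n') := by
    have := dvd_sub h h'
    have e : c + m * n - (c + m * n') = m * ((n : ℤ) - n') := by ring
    rwa [e] at this
  have h2 : (l : ℤ) ∣ (n : ℤ) - n' := by
    have hp : Prime (l : ℤ) := Nat.prime_iff_prime_int.mp hl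
    rcases hp.dvd_or_dvd h1 with h | h
    · exact absurd (Int.natCast_dvd_natCast.mp h) hlm
    · exact h
  rw [mem_range] at hn hn'
  have h3 : (n : ℤ) - n' = 0 := Int.eq_zero_of_abs_lt_dvd h2 (by rw [abs_lt]; constructor <;> omega)
  omega

theorem dvd_per (c : ℤ) (m p n : ℕ) :
    (p : ℤ) ∣ c + m * n ↔ (p : ℤ) ∣ c + m * ((n % p : ℕ) : ℤ) := by
  have e : c + m * (n : ℤ) = (c + m * ((n % p : ℕ) : ℤ)) + p * (m * ((n / p : ℕ) : ℤ)) := by
    have h1 : (n : ℤ) = p * ((n / p : ℕ) : ℤ) + ((n % p : ℕ) : ℤ) := by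
      exact_mod_cast (Nat.div_add_mod n p).symm
    conv_lhs => rw [h1]
    ring
  rw [e]
  exact (dvd_add_left (dvd_mul_right _ _))

/-- the sieving conditions -/
def Qc (P : Finset ℕ) (m : ℕ) (a b : ℤ) (l n : ℕ) : Prop :=
  ¬ l ∣ m ∧ ((l : ℤ) ∣ b + m * n ∨ (l ∈ P ∧ (l : ℤ) ∣ (b - a) + m * n))

theorem card_one {l m : ℕ} (hl : l.Prime) (hlm : ¬ l ∣ m) (c : ℤ) :
    ((range l).filter (fun n : ℕ => (l : ℤ) ∣ c + m * n)).card ≤ 1 := by
  rw [Finset.card_le_one]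
  intro n hn n' hn'
  rw [mem_filter] at hn hn'
  exact sol_uniq hl hlm c hn.1 hn'.1 hn.2 hn'.2

theorem perB_Qc (P : Finset ℕ) (m : ℕ) (a b : ℤ) : PerB (Qc P m a b) 2 := by
  classical
  refine ⟨fun p n => ?_, fun l hl => ?_⟩
  · unfold Qc
    rw [dvd_per b m p n, dvd_per (b - a) m p n]
  · by_cases hlm : l ∣ m
    · have : nuB (Qc P m a b) l = 0 := by
        unfold nuB
        rw [Finset.card_eq_zero, Finset.filter_eq_empty_iff]
        intro n _ hn
        exact hn.1 hlm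
      rw [this]; norm_num
    · have hsub : (range l).filter (fun r => Qc P m a b l r) ⊆
          (range l).filter (fun n : ℕ => (l : ℤ) ∣ b + m * n) ∪
          (range l).filter (fun n : ℕ => (l : ℤ) ∣ (b - a) + m * n) := by
        intro n hn
        rw [mem_filter] at hn
        rw [mem_union, mem_filter, mem_filter]
        rcases hn.2.2 with h | h
        · exact Or.inl ⟨hn.1, h⟩
        · exact Or.inr ⟨hn.1, h.2⟩
      unfold nuB
      calc _ ≤ _ := by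
            refine le_trans (le_of_eq ?_) (card_le_card hsub)
            congr
        _ ≤ _ := card_union_le _ _
        _ ≤ 1 + 1 := add_le_add (card_one hl hlm b) (card_one hl hlm (b - a))

theorem nu_ge_one {P : Finset ℕ} {m : ℕ} {a b : ℤ} {l : ℕ} (hl : l.Prime) (hlm : ¬ l ∣ m) :
    1 ≤ nuB (Qc P m a b) l := by
  classical
  obtain ⟨n, hn, h⟩ := sol hl hlm b
  unfold nuB
  rw [Nat.one_le_iff_ne_zero, Finset.card_ne_zero]
  exact ⟨n, mem_filter.mpr ⟨hn, hlm, Or.inl h⟩⟩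

theorem nu_ge_two {P : Finset ℕ} {m : ℕ} {a b : ℤ} {l : ℕ} (hl : l.Prime) (hlm : ¬ l ∣ m)
    (hP : l ∈ P) (ha : ¬ (l : ℤ) ∣ a) : 2 ≤ nuB (Qc P m a b) l := by
  classical
  obtain ⟨n, hn, h⟩ := sol hl hlm b
  obtain ⟨n', hn', h'⟩ := sol hl hlm (b - a)
  have hne : n ≠ n' := by
    rintro rfl
    apply ha
    have := dvd_sub h h'
    have e : b + m * n - (b - a + m * n) = a := by ring
    rwa [e] at this
  unfold nuB
  have h2 : ({n, n'} : Finset ℕ).card = 2 := Finset.card_pair hne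
  rw [← h2]
  refine card_le_card ?_
  intro x hx
  rw [mem_insert, mem_singleton] at hx
  rcases hx with rfl | rfl
  · exact mem_filter.mpr ⟨hn, hlm, Or.inl h⟩
  · exact mem_filter.mpr ⟨hn', hlm, Or.inr ⟨hP, h'⟩⟩

open Classical in
theorem point {P : Finset ℕ} {m : ℕ} {a b : ℤ} {l : ℕ} (hl : l.Prime) :
    1 - (nuB (Qc P m a b) l : ℝ) / l ≤ (1 - 1 / (l : ℝ)) *
      ((if l ∣ m then (1 - 1 / (l : ℝ))⁻¹ else 1) * ((if l ∈ P then (1 - 1 / (l : ℝ)) else 1) *
        (if l ∈ P ∧ (l : ℤ) ∣ a * m then (1 - 1 / (l : ℝ))⁻¹ else 1))) := by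
  have hl2 : (2 : ℝ) ≤ l := by exact_mod_cast hl.two_le
  have hl0 : (0 : ℝ) < l := by linarith
  have hx : 1 / (l : ℝ) ≤ 1 / 2 := one_div_le_one_div_of_le (by norm_num) hl2
  have hx0 : 0 < 1 / (l : ℝ) := by positivity
  set x := 1 / (l : ℝ) with hxd
  have h1x : 0 < 1 - x := by linarith
  have hnu : (nuB (Qc P m a b) l : ℝ) / l = nuB (Qc P m a b) l * x := by
    rw [hxd]; ring
  rw [hnu]
  by_cases hlm : l ∣ m
  · have h0 : (0 : ℝ) ≤ nuB (Qc P m a b) l * x := by positivity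
    have hlam : (l : ℤ) ∣ a * m := Dvd.dvd.mul_left (Int.natCast_dvd_natCast.mpr hlm) a
    rw [if_pos hlm]
    by_cases hP : l ∈ P
    · rw [if_pos hP, if_pos ⟨hP, hlam⟩, mul_inv_cancel₀ h1x.ne', mul_one, mul_inv_cancel₀ h1x.ne']
      linarith
    · rw [if_neg hP, if_neg (fun h => hP h.1), mul_one, mul_one, mul_inv_cancel₀ h1x.ne']
      linarith
  · rw [if_neg hlm, one_mul]
    have h1 : (1 : ℝ) ≤ nuB (Qc P m a b) l := by exact_mod_cast nu_ge_one hl hlm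
    by_cases hP : l ∈ P
    · rw [if_pos hP]
      by_cases ha : (l : ℤ) ∣ a
      · rw [if_pos ⟨hP, Dvd.dvd.mul_right ha _⟩, mul_inv_cancel₀ h1x.ne', mul_one]
        nlinarith
      · have hlam : ¬ (l : ℤ) ∣ a * m := by
          intro h
          rcases (Nat.prime_iff_prime_int.mp hl).dvd_or_dvd h with h | h
          · exact ha h
          · exact hlm (Int.natCast_dvd_natCast.mp h)
        rw [if_neg (fun h => hlam h.2), mul_one]
        have h2 : (2 : ℝ) ≤ nuB (Qc P m a b) l := by exact_mod_cast nu_ge_two hl hlm hP ha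
        nlinarith
    · rw [if_neg hP, if_neg (fun h => hP h.1)]
      nlinarith

open Classical in
theorem prod_bound (P : Finset ℕ) {m : ℕ} (hm : 1 ≤ m) (a b : ℤ) (Y : ℕ) :
    ∏ l ∈ pz Y, (1 - (nuB (Qc P m a b) l : ℝ) / l) ≤
      Vz Y * (((m : ℝ) / Nat.totient m) * ((∏ l ∈ (pz Y).filter (fun l => l ∈ P), (1 - 1 / (l : ℝ))) *
        ∏ l ∈ (pz Y).filter (fun l => l ∈ P ∧ (l : ℤ) ∣ a * m), (1 - 1 / (l : ℝ))⁻¹)) := by
  have hprime : ∀ l ∈ pz Y, l.Prime := fun l hl => (mem_pz.1 hl).2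
  have hpos : ∀ l : ℕ, l.Prime → 0 < 1 - 1 / (l : ℝ) := by
    intro l hl
    have hl2 : (2 : ℝ) ≤ l := by exact_mod_cast hl.two_le
    have hx : 1 / (l : ℝ) ≤ 1 / 2 := one_div_le_one_div_of_le (by norm_num) hl2
    linarith
  have hge : ∀ l : ℕ, l.Prime → 1 ≤ (1 - 1 / (l : ℝ))⁻¹ := by
    intro l hl
    rw [one_le_inv₀ (hpos l hl)]
    have : 0 ≤ 1 / (l : ℝ) := by positivity
    linarith
  have h1 := Finset.prod_le_prod (s := pz Y) (f := fun l => 1 - (nuB (Qc P m a b) l : ℝ) / l)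
    (g := fun l => (1 - 1 / (l : ℝ)) *
      ((if l ∣ m then (1 - 1 / (l : ℝ))⁻¹ else 1) * ((if l ∈ P then (1 - 1 / (l : ℝ)) else 1) *
        (if l ∈ P ∧ (l : ℤ) ∣ a * m then (1 - 1 / (l : ℝ))⁻¹ else 1)))) (fun l hl => by
      have hl0 : (0 : ℝ) < l := by exact_mod_cast (hprime l hl).pos
      have : (nuB (Qc P m a b) l : ℝ) / l ≤ 1 := by
        rw [div_le_one hl0]; exact_mod_cast nuB_le _ l
      linarith) (fun l hl => point (hprime l hl))
  refine h1.trans ?_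
  rw [Finset.prod_mul_distrib, Finset.prod_mul_distrib, Finset.prod_mul_distrib,
    ← Finset.prod_filter, ← Finset.prod_filter, ← Finset.prod_filter]
  have hV : 0 ≤ Vz Y := (Vz_pos Y).le
  refine mul_le_mul_of_nonneg_left ?_ hV
  refine mul_le_mul_of_nonneg_right ?_ (mul_nonneg (prod_nonneg fun l hl => ?_)
    (prod_nonneg fun l hl => ?_))
  · have hm0 : (0 : ℝ) < m := by exact_mod_cast hm
    have htot : (Nat.totient m : ℝ) = m * ∏ p ∈ m.primeFactors, (1 - 1 / (p : ℝ)) := by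
      have := Nat.totient_eq_mul_prod_factors m
      have h2 : ((Nat.totient m : ℚ) : ℝ) = ((m * ∏ p ∈ m.primeFactors, (1 - (p : ℚ)⁻¹) : ℚ) : ℝ) := by
        rw [this]
      push_cast at h2
      simpa only [one_div] using h2
    have hpp : 0 < ∏ p ∈ m.primeFactors, (1 - 1 / (p : ℝ)) :=
      prod_pos fun p hp => hpos p (Nat.prime_of_mem_primeFactors hp)
    have h3 : (m : ℝ) / Nat.totient m = ∏ p ∈ m.primeFactors, (1 - 1 / (p : ℝ))⁻¹ := by
      rw [htot, Finset.prod_inv_distrib]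
      field_simp
    rw [h3]
    refine Finset.prod_le_prod_of_subset_of_one_le ?_ ?_ ?_
    · intro l hl
      rw [mem_filter] at hl
      exact Nat.mem_primeFactors.mpr ⟨hprime l hl.1, hl.2, by omega⟩
    · intro l hl
      exact le_trans zero_le_one (hge l (hprime l (mem_filter.mp hl).1))
    · intro l hl _
      exact hge l (Nat.prime_of_mem_primeFactors hl)
  · exact (hpos l (hprime l (mem_filter.mp hl).1)).le
  · exact le_trans zero_le_one (hge l (hprime l (mem_filter.mp hl).1))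

theorem few_primes (T : Finset ℕ) (hT : ∀ l ∈ T, l.Prime) {M : ℕ} (hM : M ≠ 0)
    (hd : ∀ l ∈ T, l ∣ M) : 2 ^ T.card ≤ M := by
  have h1 : ∏ l ∈ T, l ∣ M := Finset.prod_primes_dvd M (fun l hl => (hT l hl).prime) hd
  have h2 : ∏ l ∈ T, l ≤ M := Nat.le_of_dvd (Nat.pos_of_ne_zero hM) h1
  refine le_trans ?_ h2
  rw [← Finset.prod_const]
  exact Finset.prod_le_prod' fun l hl => (hT l hl).two_le

open Classical in
theorem k_bound (P : Finset ℕ) {m : ℕ} (hm : 1 ≤ m) {a : ℤ} (ha : a ≠ 0) {N : ℕ}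
    (hL : 9 ≤ Real.log N) (hP : ∀ l ∈ P, Real.log N ^ 2 ≤ (l : ℝ)) (haN : |(a : ℝ)| ≤ N)
    (hmN : (m : ℝ) ≤ N) (Y : ℕ) :
    ∏ l ∈ (pz Y).filter (fun l => l ∈ P ∧ (l : ℤ) ∣ a * m), (1 - 1 / (l : ℝ))⁻¹ ≤ 2 := by
  set T := (pz Y).filter (fun l => l ∈ P ∧ (l : ℤ) ∣ a * m) with hTd
  set L := Real.log N with hLd
  have hT : ∀ l ∈ T, l.Prime ∧ Real.log N ^ 2 ≤ (l : ℝ) ∧ (l : ℤ) ∣ a * m := by
    intro l hl
    rw [hTd, mem_filter] at hl
    exact ⟨(mem_pz.1 hl.1).2, hP l hl.2.1, hl.2.2⟩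
  have hN0 : (0 : ℝ) < N := by
    by_contra h
    have h2 : (N : ℝ) = 0 := le_antisymm (not_lt.mp h) (Nat.cast_nonneg N)
    rw [hLd, h2, Real.log_zero] at hL
    linarith
  have hM0 : (a * m).natAbs ≠ 0 := by
    rw [Ne, Int.natAbs_eq_zero]
    exact mul_ne_zero ha (by exact_mod_cast (by omega : m ≠ 0))
  have h1 := few_primes T (fun l hl => (hT l hl).1) hM0 fun l hl =>
    Int.natCast_dvd.mp (hT l hl).2.2
  have h2 : (((a * m).natAbs : ℕ) : ℝ) ≤ (N : ℝ) ^ 2 := by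
    rw [Nat.cast_natAbs, Int.cast_abs, Int.cast_mul, abs_mul, Int.cast_natCast, Nat.abs_cast, pow_two]
    exact mul_le_mul haN hmN (Nat.cast_nonneg m) hN0.le
  have h3 : (2 : ℝ) ^ T.card ≤ (N : ℝ) ^ 2 := by
    refine le_trans ?_ h2
    exact_mod_cast h1
  have h4 := Real.log_le_log (by positivity) h3
  rw [Real.log_pow, Real.log_pow] at h4
  have hlog2 := Real.log_two_gt_d9
  have hcard : (T.card : ℝ) ≤ 3 * L := by
    have hc0 : (0 : ℝ) ≤ T.card := Nat.cast_nonneg _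
    push_cast at h4
    nlinarith
  have h5 : ∏ l ∈ T, (1 - 1 / (l : ℝ))⁻¹ ≤ ∏ l ∈ T, Real.exp (2 / L ^ 2) := by
    refine Finset.prod_le_prod (fun l hl => ?_) (fun l hl => ?_)
    · have hl2 : (2 : ℝ) ≤ l := by exact_mod_cast (hT l hl).1.two_le
      have hx : 1 / (l : ℝ) ≤ 1 / 2 := one_div_le_one_div_of_le (by norm_num) hl2
      exact inv_nonneg.mpr (by linarith)
    · have hl2 : (2 : ℝ) ≤ l := by exact_mod_cast (hT l hl).1.two_le
      have hx : 1 / (l : ℝ) ≤ 1 / 2 := one_div_le_one_div_of_le (by norm_num) hl2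
      have hx0 : 0 < 1 / (l : ℝ) := by positivity
      have hL2 : 0 < L ^ 2 := by positivity
      have hxl : 1 / (l : ℝ) ≤ 1 / L ^ 2 := one_div_le_one_div_of_le hL2 (hT l hl).2.1
      set x := 1 / (l : ℝ)
      have h6 : (1 - x)⁻¹ ≤ 1 + 2 * x := by
        rw [inv_le_iff_one_le_mul₀ (by linarith)]
        nlinarith
      have h7 := Real.add_one_le_exp (2 / L ^ 2)
      have h8 : 2 / L ^ 2 = 2 * (1 / L ^ 2) := by ring
      linarith
  refine h5.trans ?_
  rw [Finset.prod_const, ← Real.exp_nat_mul, ← Real.le_log_iff_exp_le (by norm_num)]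
  have hL0 : 0 < L := by linarith
  calc (T.card : ℝ) * (2 / L ^ 2) ≤ (3 * L) * (2 / L ^ 2) :=
        mul_le_mul_of_nonneg_right hcard (by positivity)
    _ = 6 / L := by field_simp; ring
    _ ≤ 6 / 9 := div_le_div_of_nonneg_left (by norm_num) (by norm_num) hL
    _ ≤ Real.log 2 := by linarith

open Classical in
theorem count_bound (P : Finset ℕ) {m : ℕ} (hm : 1 ≤ m) (a : ℤ) (N Y : ℕ) :
    ((Icc 1 N).filter (fun p : ℕ => p.Prime ∧ (m : ℤ) ∣ a - p ∧ xx P (p - a) = 1)).card ≤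
      Y + ((Icc 1 (N / m + 1)).filter (fun n : ℕ => ∀ l ∈ pz Y,
        ¬ Qc P m a (a % (m : ℤ) - m) l n)).card := by
  set S := (Icc 1 N).filter (fun p : ℕ => p.Prime ∧ (m : ℤ) ∣ a - p ∧ xx P (p - a) = 1) with hS
  have hm0 : (0 : ℤ) < m := by exact_mod_cast hm
  have h1 : S ⊆ Icc 1 Y ∪ S.filter (fun p => Y < p) := by
    intro p hp
    rw [mem_union, mem_filter]
    have hp1 := (mem_Icc.mp (mem_filter.mp hp).1).1
    rcases Nat.lt_or_ge Y p with h | h
    · exact Or.inr ⟨hp, h⟩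
    · exact Or.inl (mem_Icc.mpr ⟨hp1, h⟩)
  refine (card_le_card h1).trans ((card_union_le _ _).trans ?_)
  refine add_le_add (by rw [Nat.card_Icc, Nat.add_sub_cancel]) ?_
  have hmod : ∀ p ∈ S, a % (m : ℤ) = ((p % m : ℕ) : ℤ) := by
    intro p hp
    have h2 := (mem_filter.mp hp).2.2.1
    have h3 : a % (m : ℤ) = (p : ℤ) % m := Int.emod_eq_emod_iff_emod_sub_eq_zero.mpr
      (Int.emod_eq_zero_of_dvd h2)
    rw [h3]
    exact_mod_cast rfl
  refine card_le_card_of_injOn (fun p => p / m + 1) ?_ ?_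
  · intro p hp
    rw [mem_coe, mem_filter] at hp
    obtain ⟨hpS, hpY⟩ := hp
    have hpm := hmod p hpS
    have hp' := mem_filter.mp hpS
    rw [mem_Icc] at hp'
    rw [mem_coe, mem_filter, mem_Icc]
    refine ⟨⟨Nat.le_add_left 1 _, Nat.add_le_add_right (Nat.div_le_div_right hp'.1.2) 1⟩, ?_⟩
    intro l hl hQ
    have hlp := mem_pz.1 hl
    have hval : a % (m : ℤ) - m + m * ((p / m + 1 : ℕ) : ℤ) = p := by
      rw [hpm]
      have := Nat.div_add_mod p m
      have h4 : (p : ℤ) = m * ((p / m : ℕ) : ℤ) + ((p % m : ℕ) : ℤ) := by exact_mod_cast this.symm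
      conv_rhs => rw [h4]
      push_cast
      ring
    obtain ⟨-, h5 | ⟨hlP, h5⟩⟩ := hQ
    · rw [hval] at h5
      have h6 : l ∣ p := Int.natCast_dvd_natCast.mp h5
      have h7 := (Nat.prime_dvd_prime_iff_eq hlp.2 hp'.2.1).mp h6
      omega
    · have h8 : a % (m : ℤ) - m - a + m * ((p / m + 1 : ℕ) : ℤ) = p - a := by
        rw [← hval]; ring
      rw [h8] at h5
      have h9 := hp'.2.2.2
      unfold xx at h9
      by_cases h10 : ∀ q ∈ P, ¬ (q : ℤ) ∣ (p : ℤ) - a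
      · exact h10 l hlP h5
      · rw [if_neg h10] at h9
        norm_num at h9
  · intro p hp p' hp' h
    rw [mem_coe, mem_filter] at hp hp'
    have h2 := hmod p hp.1
    rw [hmod p' hp'.1] at h2
    have h3 : p % m = p' % m := by exact_mod_cast h2.symm
    have h4 : p / m = p' / m := by
      simp only at h
      omega
    rw [← Nat.div_add_mod p m, ← Nat.div_add_mod p' m, h3, h4]

open Classical in
theorem UBS (hVLB : St_VLB) : St_UBS := by
  obtain ⟨K, x0, hK, hfund⟩ := sys_fund 2 (by norm_num) 1 one_pos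
  obtain ⟨C₁, hC₁, hV⟩ := Vz_up
  obtain ⟨c₂, hc₂, hvlb⟩ := hVLB
  intro B hB ε₁ hε₁ hε₁1
  have hK0 : (0 : ℝ) < K := by exact_mod_cast hK
  have hK1 : (1 : ℝ) ≤ K := by exact_mod_cast hK
  set ε' := min ε₁ (1 / (4 * K : ℝ)) with hε'
  have hε'0 : 0 < ε' := lt_min hε₁ (by positivity)
  have hε'1 : ε' ≤ 1 := (min_le_left _ _).trans hε₁1
  obtain ⟨N1, h1⟩ := hvlb B (by omega) ε₁ hε₁ hε₁1
  obtain ⟨N2, h2⟩ := hvlb B (by omega) ε' hε'0 hε'1
  have htend : Filter.Tendsto (fun N : ℕ => (N : ℝ)) Filter.atTop Filter.atTop :=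
    tendsto_natCast_atTop_atTop
  have e1 : ∀ᶠ N : ℕ in Filter.atTop, 9 ≤ Real.log N :=
    (Real.tendsto_log_atTop.comp htend).eventually_ge_atTop 9
  have e2 : ∀ᶠ N : ℕ in Filter.atTop, (x0 : ℝ) + 3 ≤ (N : ℝ) ^ (1 / (8 * K : ℝ)) :=
    ((tendsto_rpow_atTop (by positivity)).comp htend).eventually_ge_atTop _
  have e3 : ∀ᶠ N : ℕ in Filter.atTop, 200 / c₂ ≤ (N : ℝ) ^ (1 / 2 : ℝ) :=
    ((tendsto_rpow_atTop (by norm_num)).comp htend).eventually_ge_atTop _
  obtain ⟨N3, h3⟩ := Filter.eventually_atTop.mp (e1.and (e2.and e3))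
  set C' : ℝ := 64 * K * C₁ * ε₁ / (c₂ ^ 2 * ε') with hC'
  have hC'0 : 0 < C' := by positivity
  refine ⟨C' + 1, max N1 (max N2 N3), by positivity, ?_⟩
  intro N hN a ha haN m hm hmN hgcd
  have hN1 : N1 ≤ N := (le_max_left _ _).trans hN
  have hN2 : N2 ≤ N := ((le_max_left _ _).trans (le_max_right _ _)).trans hN
  have hN3 : N3 ≤ N := ((le_max_right _ _).trans (le_max_right _ _)).trans hN
  obtain ⟨hL9, hx0, hc⟩ := h3 N hN3
  obtain ⟨hVlow, -⟩ := h1 N hN1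
  obtain ⟨-, hVup⟩ := h2 N hN2
  set L := Real.log N with hLd
  have hL0 : 0 < L := by linarith
  have hN0 : (0 : ℝ) < N := by
    by_contra h
    have h2 : (N : ℝ) = 0 := le_antisymm (not_lt.mp h) (Nat.cast_nonneg N)
    rw [hLd, h2, Real.log_zero] at hL9
    linarith
  have hN1' : (1 : ℝ) ≤ N := by exact_mod_cast (Nat.cast_pos.mp hN0 : 0 < N)
  have hm0 : (0 : ℝ) < m := by exact_mod_cast hm
  have hm1 : (1 : ℝ) ≤ m := by exact_mod_cast hm
  have hmN' : (m : ℝ) ≤ N := hmN.trans (by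
    calc (N : ℝ) ^ (1 / 20 : ℝ) ≤ (N : ℝ) ^ (1 : ℝ) :=
          Real.rpow_le_rpow_of_exponent_le hN1' (by norm_num)
      _ = N := Real.rpow_one _)
  -- the level
  set t := (N : ℝ) ^ (1 / (8 * K : ℝ)) with ht
  have ht3 : 3 ≤ t := by
    have : (0 : ℝ) ≤ x0 := Nat.cast_nonneg _
    linarith
  have htsq : (N : ℝ) ^ (1 / (4 * K : ℝ)) = t ^ 2 := by
    rw [ht, ← Real.rpow_natCast, ← Real.rpow_mul hN0.le]
    congr 1
    push_cast
    field_simp
    norm_num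
  set Y : ℕ := ⌊(N : ℝ) ^ (1 / (4 * K : ℝ))⌋₊ with hY
  have hYle : (Y : ℝ) ≤ (N : ℝ) ^ (1 / (4 * K : ℝ)) := Nat.floor_le (by positivity)
  have hYge : t ≤ Y := by
    have h4 : (N : ℝ) ^ (1 / (4 * K : ℝ)) < Y + 1 := Nat.lt_floor_add_one _
    rw [htsq] at h4
    nlinarith
  have hYx0 : x0 ≤ Y := by
    have : (x0 : ℝ) ≤ Y := by linarith
    exact_mod_cast this
  have hY3 : 3 ≤ Y := by
    have : (3 : ℝ) ≤ Y := by linarith
    exact_mod_cast this
  have hYpow : (Y : ℝ) ^ K ≤ (N : ℝ) ^ (1 / 4 : ℝ) := by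
    calc (Y : ℝ) ^ K ≤ ((N : ℝ) ^ (1 / (4 * K : ℝ))) ^ K := pow_le_pow_left₀ (Nat.cast_nonneg _) hYle K
      _ = (N : ℝ) ^ (1 / 4 : ℝ) := by
        rw [← Real.rpow_natCast, ← Real.rpow_mul hN0.le]
        congr 1
        field_simp
  have hYN : (Y : ℝ) ≤ (N : ℝ) ^ (1 / 4 : ℝ) := by
    refine le_trans ?_ hYpow
    have hY1 : (1 : ℝ) ≤ Y := by linarith
    exact le_self_pow₀ hY1 (by omega)
  have hN14 : (1 : ℝ) ≤ (N : ℝ) ^ (1 / 4 : ℝ) := Real.one_le_rpow hN1' (by norm_num)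
  have hsqrt : √((Y ^ K : ℕ) : ℝ) ≤ (N : ℝ) ^ (1 / 4 : ℝ) := by
    rw [Nat.cast_pow]
    refine (Real.sqrt_le_sqrt hYpow).trans ?_
    rw [Real.sqrt_le_left (by positivity)]
    nlinarith
  have hlogY : L / (8 * K) ≤ Real.log Y := by
    have h4 := Real.log_le_log (by linarith) hYge
    rw [ht, Real.log_rpow hN0] at h4
    calc L / (8 * K) = 1 / (8 * K) * Real.log N := by rw [← hLd]; ring
      _ ≤ _ := h4
  -- the sieve
  set P := P1 N B ε₁ with hP
  set X := N / m + 1 with hX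
  set Q := Qc P m a (a % (m : ℤ) - m) with hQ
  have hf := hfund (Y ^ K) Y hYx0 le_rfl Q (perB_Qc P m a _) X
  set Pr := ∏ p ∈ pz Y, (1 - (nuB Q p : ℝ) / p) with hPr
  have hcount := count_bound P hm a N Y
  have hcount' : (((Icc 1 N).filter (fun p : ℕ => p.Prime ∧ (m : ℤ) ∣ a - p ∧
      xx P (p - a) = 1)).card : ℝ) ≤ Y + (((Icc 1 X).filter (fun n : ℕ => ∀ l ∈ pz Y,
        ¬ Q l n)).card : ℝ) := by
    exact_mod_cast hcount
  have hf' := (abs_le.mp hf).2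
  have hPr0 : 0 ≤ Pr := prod_nonneg fun p hp => by
    have hl0 : (0 : ℝ) < p := by exact_mod_cast (mem_pz.1 hp).2.pos
    have : (nuB Q p : ℝ) / p ≤ 1 := by
      rw [div_le_one hl0]; exact_mod_cast nuB_le _ p
    linarith
  -- the product
  have hPprop : ∀ l ∈ P, l.Prime ∧ Real.log N ^ B ≤ (l : ℝ) ∧ tt N l < ε₁ := by
    intro l hl
    rw [hP, P1, mem_filter] at hl
    exact hl.2
  have hPlow : ∀ l ∈ P, Real.log N ^ 2 ≤ (l : ℝ) := by
    intro l hl
    refine le_trans ?_ (hPprop l hl).2.1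
    exact pow_le_pow_right₀ (by linarith) hB
  have hpb := prod_bound P hm a (a % (m : ℤ) - m) Y
  have hkb := k_bound P hm ha hL9 hPlow haN hmN' Y
  have hpos : ∀ l : ℕ, l.Prime → 0 ≤ 1 - 1 / (l : ℝ) ∧ 1 - 1 / (l : ℝ) ≤ 1 := by
    intro l hl
    have hl2 : (2 : ℝ) ≤ l := by exact_mod_cast hl.two_le
    have hx : 1 / (l : ℝ) ≤ 1 / 2 := one_div_le_one_div_of_le (by norm_num) hl2
    have hx0 : 0 < 1 / (l : ℝ) := by positivity
    constructor <;> linarith
  have hsubP : P1 N B ε' ⊆ (pz Y).filter (fun l => l ∈ P) := by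
    intro l hl
    rw [P1, mem_filter] at hl
    obtain ⟨hl1, hlp, hlB, hlt⟩ := hl
    rw [mem_filter, mem_pz]
    refine ⟨⟨?_, hlp⟩, ?_⟩
    · have hl0 : (0 : ℝ) < l := by exact_mod_cast hlp.pos
      have h5 : Real.log l < 1 / (4 * K) * L := by
        have h6 : Real.log l / L < 1 / (4 * K) := lt_of_lt_of_le hlt (min_le_right _ _)
        rwa [div_lt_iff₀ hL0] at h6
      have h7 : (l : ℝ) ≤ (N : ℝ) ^ (1 / (4 * K : ℝ)) := by
        rw [← Real.log_le_log_iff hl0 (by positivity), Real.log_rpow hN0]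
        exact h5.le
      exact Nat.le_floor h7
    · rw [hP, P1, mem_filter]
      exact ⟨hl1, hlp, hlB, lt_of_lt_of_le hlt (min_le_left _ _)⟩
  have hh : ∏ l ∈ (pz Y).filter (fun l => l ∈ P), (1 - 1 / (l : ℝ)) ≤ VV (P1 N B ε') := by
    unfold VV
    refine Finset.prod_le_prod_of_subset_of_le_one hsubP (fun l hl => ?_) (fun l hl _ => ?_)
    · exact (hpos l (mem_pz.1 (mem_filter.mp hl).1).2).1
    · exact (hpos l (mem_pz.1 (mem_filter.mp hl).1).2).2
  have hVV0 : 0 ≤ VV P := prod_nonneg fun l hl => (hpos l (hPprop l hl).1).1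
  have hVVε : VV (P1 N B ε') ≤ ε₁ / (c₂ ^ 2 * ε') * VV P := by
    refine hVup.trans ?_
    have h8 : B * Real.log L / L ≤ ε₁ / c₂ * VV P := by
      have h9 : c₂ * (B * Real.log L / (ε₁ * L)) = c₂ / ε₁ * (B * Real.log L / L) := by
        field_simp
      rw [h9, div_mul_eq_mul_div, div_le_iff₀ hε₁] at hVlow
      rw [div_mul_eq_mul_div, le_div_iff₀ hc₂]
      linarith
    calc 1 / c₂ * (B * Real.log L / (ε' * L)) = 1 / (c₂ * ε') * (B * Real.log L / L) := by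
          field_simp
      _ ≤ 1 / (c₂ * ε') * (ε₁ / c₂ * VV P) := mul_le_mul_of_nonneg_left h8 (by positivity)
      _ = ε₁ / (c₂ ^ 2 * ε') * VV P := by field_simp
  have hVz : Vz Y ≤ 8 * K * C₁ / L := by
    refine (hV Y hY3).trans ?_
    rw [div_le_div_iff₀ (Real.log_pos (by exact_mod_cast (by omega : 1 < Y))) hL0]
    rw [div_le_iff₀ (by positivity)] at hlogY
    nlinarith
  have hφ0 : (0 : ℝ) < Nat.totient m := by exact_mod_cast Nat.totient_pos.mpr hm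
  have hprod : Pr ≤ (8 * K * C₁ / L) * ((m : ℝ) / Nat.totient m * (ε₁ / (c₂ ^ 2 * ε') * VV P * 2)) := by
    refine hpb.trans ?_
    refine mul_le_mul hVz ?_ ?_ (by positivity)
    · refine mul_le_mul_of_nonneg_left ?_ (by positivity)
      refine mul_le_mul (hh.trans hVVε) hkb (prod_nonneg fun l hl => ?_) (by positivity)
      exact inv_nonneg.mpr (hpos l (mem_pz.1 (mem_filter.mp hl).1).2).1
    · refine mul_nonneg (by positivity) (mul_nonneg (prod_nonneg fun l hl => ?_)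
        (prod_nonneg fun l hl => ?_))
      · exact (hpos l (mem_pz.1 (mem_filter.mp hl).1).2).1
      · exact inv_nonneg.mpr (hpos l (mem_pz.1 (mem_filter.mp hl).1).2).1
  have hXle : (X : ℝ) ≤ 2 * (N / m) := by
    have h10 : ((N / m : ℕ) : ℝ) ≤ (N : ℝ) / m := Nat.cast_div_le
    have h11 : (1 : ℝ) ≤ N / m := by rwa [one_le_div hm0]
    rw [hX]
    push_cast
    linarith
  set E := C' * (N / (Nat.totient m * L)) * VV P with hE
  have hmain : 2 * (X * Pr) ≤ E := by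
    calc 2 * (X * Pr) ≤ 2 * ((2 * (N / m)) * ((8 * K * C₁ / L) * ((m : ℝ) / Nat.totient m *
          (ε₁ / (c₂ ^ 2 * ε') * VV P * 2)))) := by
          refine mul_le_mul_of_nonneg_left ?_ (by norm_num)
          exact mul_le_mul hXle hprod hPr0 (by positivity)
      _ = E := by
          rw [hE, hC']
          field_simp
          ring
  -- the error
  have herr : 2 * (N : ℝ) ^ (1 / 4 : ℝ) ≤ N / (Nat.totient m * L) * VV P := by
    have hVc : c₂ / L ≤ VV P := by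
      refine le_trans ?_ hVlow
      have h12 : 1 ≤ Real.log L := by
        rw [Real.le_log_iff_exp_le hL0]
        have := Real.exp_one_lt_d9
        linarith
      have h13 : (1 : ℝ) ≤ B := by exact_mod_cast (by omega : 1 ≤ B)
      rw [div_eq_mul_one_div]
      refine mul_le_mul_of_nonneg_left ?_ hc₂.le
      rw [div_le_div_iff₀ hL0 (by positivity)]
      have h14 : (1 : ℝ) ≤ B * Real.log L := by nlinarith
      have h15 : ε₁ * L ≤ L := by nlinarith
      nlinarith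
    have hφm : (Nat.totient m : ℝ) ≤ (N : ℝ) ^ (1 / 20 : ℝ) := by
      refine le_trans ?_ hmN
      exact_mod_cast Nat.totient_le m
    have hlog10 : L ≤ 10 * (N : ℝ) ^ (1 / 10 : ℝ) := by
      have := Real.log_le_rpow_div hN0.le (by norm_num : (0 : ℝ) < 1 / 10)
      rw [← hLd] at this
      linarith
    have hA : (0 : ℝ) < (N : ℝ) ^ (1 / 20 : ℝ) := by positivity
    calc 2 * (N : ℝ) ^ (1 / 4 : ℝ) ≤ N / ((N : ℝ) ^ (1 / 20 : ℝ) * L) * (c₂ / L) := by
          rw [div_mul_div_comm, le_div_iff₀ (by positivity)]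
          have h16 : (N : ℝ) = (N : ℝ) ^ (1 / 4 : ℝ) * (N : ℝ) ^ (1 / 20 : ℝ) *
              ((N : ℝ) ^ (1 / 10 : ℝ)) ^ 2 * (N : ℝ) ^ (1 / 2 : ℝ) := by
            rw [← Real.rpow_natCast, ← Real.rpow_mul hN0.le, ← Real.rpow_add hN0,
              ← Real.rpow_add hN0, ← Real.rpow_add hN0]
            norm_num
          have h17 : L * L ≤ 100 * ((N : ℝ) ^ (1 / 10 : ℝ)) ^ 2 := by nlinarith
          have h18 : 200 ≤ c₂ * (N : ℝ) ^ (1 / 2 : ℝ) := by
            rw [div_le_iff₀ hc₂] at hc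
            linarith
          calc 2 * (N : ℝ) ^ (1 / 4 : ℝ) * ((N : ℝ) ^ (1 / 20 : ℝ) * L * L)
              = 2 * (N : ℝ) ^ (1 / 4 : ℝ) * (N : ℝ) ^ (1 / 20 : ℝ) * (L * L) := by ring
            _ ≤ 2 * (N : ℝ) ^ (1 / 4 : ℝ) * (N : ℝ) ^ (1 / 20 : ℝ) *
                (100 * ((N : ℝ) ^ (1 / 10 : ℝ)) ^ 2) := mul_le_mul_of_nonneg_left h17 (by positivity)
            _ = (N : ℝ) ^ (1 / 4 : ℝ) * (N : ℝ) ^ (1 / 20 : ℝ) *
                ((N : ℝ) ^ (1 / 10 : ℝ)) ^ 2 * 200 := by ring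
            _ ≤ (N : ℝ) ^ (1 / 4 : ℝ) * (N : ℝ) ^ (1 / 20 : ℝ) *
                ((N : ℝ) ^ (1 / 10 : ℝ)) ^ 2 * (c₂ * (N : ℝ) ^ (1 / 2 : ℝ)) :=
                mul_le_mul_of_nonneg_left h18 (by positivity)
            _ = (N : ℝ) * c₂ := by
                conv_rhs => rw [h16]
                ring
      _ ≤ N / (Nat.totient m * L) * VV P := by
          refine mul_le_mul ?_ hVc (by positivity) (by positivity)
          refine div_le_div_of_nonneg_left hN0.le (by positivity) ?_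
          exact mul_le_mul_of_nonneg_right hφm hL0.le
  have hfin : (C' + 1) * (N / (Nat.totient m * Real.log N)) * VV P =
      E + N / (Nat.totient m * L) * VV P := by
    rw [hE, ← hLd]; ring
  rw [hfin]
  linarith

end Pool.Agent.W366.PL
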